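import Pool.Agent.N436.DF.Stm3

/-!
# Project DF, leaf DH/28 (helper78): two-sided argument, the boundary edge outside `v` is real
-/

set_option autoImplicit false

namespace Pool.Agent.N78.DF

open Finset Pool.Agent.N436.DF

section

variable {V : Type} [DecidableEq V] {H : Hub V} {S X : Finset V} {v y₁ y₂ x z : V} {ν : ℤ}

/-- the edges between `X` and `S \ X` -/
structure Bdy (H : Hub V) (S X : Finset V) (v y₁ y₂ x z : V) : Prop where
  hx : x ∈ X
  hxv : x ≠ v
  hz : z ∈ S \ X
  hr : H.r x z = 1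
  m0 : ∀ a ∈ X, ∀ b ∈ S \ X, H.m a b = 0
  r : ∀ a ∈ X, ∀ b ∈ S \ X, H.r a b =
    (if a = v then ((if b = y₁ then 1 else 0) + (if b = y₂ then 1 else 0)) else 0) +
      (if a = x then (if b = z then 1 else 0) else 0)

theorem bdy_of (hT : T2 H S X v y₁ y₂ ν) (hbo : bo H S X v ≤ 2) (heo : eo H S X v = 1)
    (hx : x ∈ X) (hxv : x ≠ v) (hz : z ∈ S \ X) (hr : H.r x z = 1) :
    Bdy H S X v y₁ y₂ x z := by
  have ok := hT.mc.ok
  have hr0 : ∀ a b, 0 ≤ H.r a b := fun a b => by rcases ok.r01 a b with h | h <;> omega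
  have hG : ∀ a b, 0 ≤ H.r a b + H.m a b := fun a b => add_nonneg (hr0 a b) (ok.m_nn a b)
  have hy2' : y₂ ∈ (S \ X).erase y₁ := Finset.mem_erase.2 ⟨hT.ne.symm, hT.hy₂⟩
  have e1 : bo H S X v = (H.r v y₁ + H.m v y₁) + ((H.r v y₂ + H.m v y₂) +
      ∑ b ∈ ((S \ X).erase y₁).erase y₂, (H.r v b + H.m v b)) := by
    unfold bo
    rw [← Finset.add_sum_erase _ _ hT.hy₁, ← Finset.add_sum_erase _ _ hy2']
  have e2 : 0 ≤ ∑ b ∈ ((S \ X).erase y₁).erase y₂, (H.r v b + H.m v b) :=
    Finset.sum_nonneg fun b _ => hG v b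
  have m1 := ok.m_nn v y₁
  have m2 := ok.m_nn v y₂
  have r1 := hT.r₁
  have r2 := hT.r₂
  have hR : ∑ b ∈ ((S \ X).erase y₁).erase y₂, (H.r v b + H.m v b) = 0 := by linarith
  have hm1 : H.m v y₁ = 0 := by linarith
  have hm2 : H.m v y₂ = 0 := by linarith
  have hRall : ∀ b ∈ S \ X, b ≠ y₁ → b ≠ y₂ → H.r v b = 0 ∧ H.m v b = 0 := by
    intro b hb h1 h2
    have h3 := (Finset.sum_eq_zero_iff_of_nonneg (fun b _ => hG v b)).1 hR b
      (Finset.mem_erase.2 ⟨h2, Finset.mem_erase.2 ⟨h1, hb⟩⟩)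
    have h4 := hr0 v b
    have h5 := ok.m_nn v b
    constructor <;> linarith
  have hx' : x ∈ X.erase v := Finset.mem_erase.2 ⟨hxv, hx⟩
  have f1 : eo H S X v = ((H.r x z + H.m x z) + ∑ b ∈ (S \ X).erase z, (H.r x b + H.m x b)) +
      ∑ a ∈ (X.erase v).erase x, ∑ b ∈ S \ X, (H.r a b + H.m a b) := by
    unfold eo
    rw [← Finset.add_sum_erase _ _ hx', ← Finset.add_sum_erase _ _ hz]
  have f2 : 0 ≤ ∑ b ∈ (S \ X).erase z, (H.r x b + H.m x b) := Finset.sum_nonneg fun b _ => hG x b
  have f3 : 0 ≤ ∑ a ∈ (X.erase v).erase x, ∑ b ∈ S \ X, (H.r a b + H.m a b) :=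
    Finset.sum_nonneg fun a _ => Finset.sum_nonneg fun b _ => hG a b
  have m3 := ok.m_nn x z
  have g1 : ∑ b ∈ (S \ X).erase z, (H.r x b + H.m x b) = 0 := by linarith
  have g2 : ∑ a ∈ (X.erase v).erase x, ∑ b ∈ S \ X, (H.r a b + H.m a b) = 0 := by linarith
  have hm3 : H.m x z = 0 := by linarith
  have hxall : ∀ b ∈ S \ X, b ≠ z → H.r x b = 0 ∧ H.m x b = 0 := by
    intro b hb h1
    have h3 := (Finset.sum_eq_zero_iff_of_nonneg (fun b _ => hG x b)).1 g1 b
      (Finset.mem_erase.2 ⟨h1, hb⟩)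
    have h4 := hr0 x b
    have h5 := ok.m_nn x b
    constructor <;> linarith
  have hoall : ∀ a ∈ X, a ≠ v → a ≠ x → ∀ b ∈ S \ X, H.r a b = 0 ∧ H.m a b = 0 := by
    intro a ha h1 h2 b hb
    have h3 := (Finset.sum_eq_zero_iff_of_nonneg
      (fun a _ => Finset.sum_nonneg fun b _ => hG a b)).1 g2 a
      (Finset.mem_erase.2 ⟨h2, Finset.mem_erase.2 ⟨h1, ha⟩⟩)
    have h6 := (Finset.sum_eq_zero_iff_of_nonneg (fun b _ => hG a b)).1 h3 b hb
    have h4 := hr0 a b
    have h5 := ok.m_nn a b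
    constructor <;> linarith
  refine ⟨hx, hxv, hz, hr, fun a ha b hb => ?_, fun a ha b hb => ?_⟩
  · by_cases h1 : a = v
    · rw [h1]
      by_cases h2 : b = y₁
      · rw [h2, hm1]
      · by_cases h3 : b = y₂
        · rw [h3, hm2]
        · exact (hRall b hb h2 h3).2
    · by_cases h2 : a = x
      · rw [h2]
        by_cases h3 : b = z
        · rw [h3, hm3]
        · exact (hxall b hb h3).2
      · exact (hoall a ha h1 h2 b hb).2
  · by_cases h1 : a = v
    · have h1x : a ≠ x := fun h => hxv (h.symm.trans h1)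
      rw [if_pos h1, if_neg h1x, h1]
      by_cases h2 : b = y₁
      · have h3 : b ≠ y₂ := fun h => hT.ne (h2.symm.trans h)
        rw [if_pos h2, if_neg h3, h2, r1]
        norm_num
      · by_cases h3 : b = y₂
        · rw [if_neg h2, if_pos h3, h3, r2]
          norm_num
        · rw [if_neg h2, if_neg h3, (hRall b hb h2 h3).1]
          norm_num
    · rw [if_neg h1]
      by_cases h2 : a = x
      · rw [if_pos h2, h2]
        by_cases h3 : b = z
        · rw [if_pos h3, h3, hr]
          norm_num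
        · rw [if_neg h3, (hxall b hb h3).1]
          norm_num
      · rw [if_neg h2, (hoall a ha h1 h2 b hb).1]
        norm_num

theorem cost3 (l : Bool → V → ℤ) (C : Finset V) (u₁ u₂ u₃ : V) (k₁ k₂ k₃ : ℤ)
    (h : ∀ a, 5 * l true a + 3 * l false a = (if a = u₁ then k₁ else 0) +
      (if a = u₂ then k₂ else 0) + (if a = u₃ then k₃ else 0)) :
    cost l C = (if u₁ ∈ C then k₁ else 0) + (if u₂ ∈ C then k₂ else 0) +
      (if u₃ ∈ C then k₃ else 0) := by
  unfold cost
  rw [Finset.sum_congr rfl (fun a _ => h a), Finset.sum_add_distrib, Finset.sum_add_distrib,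
    Finset.sum_ite_eq', Finset.sum_ite_eq', Finset.sum_ite_eq']

/-- gluing -/
theorem glue3 (hg : S3_glue) (ok : Ok P13 H) (hXS : X ⊆ S) (hv : v ∈ X) (hy₁ : y₁ ∈ S \ X)
    (hy₂ : y₂ ∈ S \ X) (hB : Bdy H S X v y₁ y₂ x z) {f g : V → Bool} {p q : V → V → ℤ}
    (hf : ColBy H X f p) (hgc : ColBy H (S \ X) g q) (e₁ e₂ e₃ : ℤ)
    (he₁ : e₁ = if f v = g y₁ then 1 else 0) (he₂ : e₂ = if f v = g y₂ then 1 else 0)
    (he₃ : e₃ = if f x = g z then 1 else 0)
    (hcv : load H X f p v + (e₁ + e₂) ≤ H.c (f v) v) (hcx : load H X f p x + e₃ ≤ H.c (f x) x)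
    (hcB : ∀ b ∈ S \ X, load H (S \ X) g q b + ((if b = y₁ then e₁ else 0) +
      (if b = y₂ then e₂ else 0) + (if b = z then e₃ else 0)) ≤ H.c (g b) b) : Col H S := by
  have he1 : 0 ≤ e₁ := by rw [he₁]; split_ifs <;> norm_num
  have he2 : 0 ≤ e₂ := by rw [he₂]; split_ifs <;> norm_num
  have he3 : 0 ≤ e₃ := by rw [he₃]; split_ifs <;> norm_num
  obtain ⟨s, hs⟩ : ∃ s : V → V → ℤ, ∀ a b, s a b =
      (if a = v then ((if b = y₁ then e₁ else 0) + (if b = y₂ then e₂ else 0)) else 0) +
      (if a = x then (if b = z then e₃ else 0) else 0) := ⟨_, fun _ _ => rfl⟩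
  have hs0 : ∀ a b, 0 ≤ s a b := by
    intro a b
    rw [hs]
    split_ifs <;> omega
  have hsX : ∀ a, ∑ b ∈ S \ X, s a b = (if a = v then e₁ + e₂ else 0) +
      (if a = x then e₃ else 0) := by
    intro a
    have h1 : ∀ b ∈ S \ X, s a b = (if b = y₁ then (if a = v then e₁ else 0) else 0) +
        (if b = y₂ then (if a = v then e₂ else 0) else 0) +
        (if b = z then (if a = x then e₃ else 0) else 0) := by
      intro b _
      rw [hs]
      split_ifs <;> ring
    rw [Finset.sum_congr rfl h1, Finset.sum_add_distrib, Finset.sum_add_distrib,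
      Finset.sum_ite_eq', Finset.sum_ite_eq', Finset.sum_ite_eq', if_pos hy₁, if_pos hy₂,
      if_pos hB.hz]
    split_ifs <;> ring
  have hsB : ∀ b, ∑ a ∈ X, s a b = (if b = y₁ then e₁ else 0) + (if b = y₂ then e₂ else 0) +
      (if b = z then e₃ else 0) := by
    intro b
    rw [Finset.sum_congr rfl fun a _ => hs a b, Finset.sum_add_distrib, Finset.sum_ite_eq',
      Finset.sum_ite_eq', if_pos hv, if_pos hB.hx]
  have hle : ∀ a ∈ X, ∀ b ∈ S \ X, f a = g b → H.r a b ≤ s a b := by
    intro a ha b hb hab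
    rw [hB.r a ha b hb, hs]
    have t1 : a = v → (if b = y₁ then (1 : ℤ) else 0) ≤ (if b = y₁ then e₁ else 0) := by
      intro hav
      by_cases h : b = y₁
      · rw [if_pos h, if_pos h, he₁, if_pos (by rw [← hav, ← h]; exact hab)]
      · rw [if_neg h, if_neg h]
    have t2 : a = v → (if b = y₂ then (1 : ℤ) else 0) ≤ (if b = y₂ then e₂ else 0) := by
      intro hav
      by_cases h : b = y₂
      · rw [if_pos h, if_pos h, he₂, if_pos (by rw [← hav, ← h]; exact hab)]
      · rw [if_neg h, if_neg h]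
    have t3 : a = x → (if b = z then (1 : ℤ) else 0) ≤ (if b = z then e₃ else 0) := by
      intro hav
      by_cases h : b = z
      · rw [if_pos h, if_pos h, he₃, if_pos (by rw [← hav, ← h]; exact hab)]
      · rw [if_neg h, if_neg h]
    refine add_le_add ?_ ?_
    · by_cases h : a = v
      · rw [if_pos h, if_pos h]
        exact add_le_add (t1 h) (t2 h)
      · rw [if_neg h, if_neg h]
    · by_cases h : a = x
      · rw [if_pos h, if_pos h]
        exact t3 h
      · rw [if_neg h, if_neg h]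
  obtain ⟨F, P', hF, -⟩ := hg V H S X f g p q s (fun b a => s a b) ok hXS hf hgc
    (fun a b => hs0 a b) (fun b a => hs0 a b) (fun a ha b hb hab => ⟨hle a ha b hb hab,
      hle a ha b hb hab⟩) (fun a ha b hb _ => by
        rw [hB.m0 a ha b hb]
        have := hs0 a b
        show (0 : ℤ) ≤ s a b + s a b
        omega) (fun a ha => by
        rw [hsX]
        by_cases h1 : a = v
        · have h2 : a ≠ x := fun h => hB.hxv (h.symm.trans h1)
          rw [if_pos h1, if_neg h2, h1, add_zero]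
          exact hcv
        · rw [if_neg h1, zero_add]
          by_cases h2 : a = x
          · rw [if_pos h2, h2]
            exact hcx
          · rw [if_neg h2, add_zero]
            exact hf.cap a ha) (fun b hb => by
        have h1 : ∑ a ∈ X, (fun b a => s a b) b a = ∑ a ∈ X, s a b := rfl
        rw [h1, hsB]
        exact hcB b hb)
  exact ⟨F, P', hF⟩

theorem rb_of {C : Finset V} {a b : V} (ha : a ∈ X) (hb : b ∈ S \ X) (hbC : b ∉ C)
    (hab : H.r a b = 1) : RB H S (X ∪ C) := by
  refine ⟨a, Finset.mem_union_left _ ha, b, ?_, hab⟩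
  rw [Finset.mem_sdiff] at hb ⊢
  refine ⟨hb.1, fun h => ?_⟩
  rcases Finset.mem_union.1 h with h | h
  · exact hb.2 h
  · exact hbC h

/-- bounds for the sets containing `X` -/
theorem bnd (hb : S3_base) (hT : T2 H S X v y₁ y₂ ν) {C : Finset V} (hC : C ⊆ S \ X) :
    -2 ≤ hp H (X ∪ C) ∧ (y₁ ∉ C → 10 ≤ hp H (X ∪ C)) ∧ (y₂ ∉ C → 10 ≤ hp H (X ∪ C)) ∧
      (y₁ ∉ C → y₂ ∉ C → ν ≤ hp H (X ∪ C)) := by
  obtain ⟨-, -, -, -, h5⟩ := hb V H hT.mc.ok
  obtain ⟨h6, -⟩ := h5 S hT.mc
  have hsub : X ∪ C ⊆ S := Finset.union_subset hT.sub (hC.trans Finset.sdiff_subset)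
  have hne : (X ∪ C).Nonempty := ⟨v, Finset.mem_union_left _ hT.hv⟩
  refine ⟨h6 _ hsub hne, fun h => hT.rb10 _ hsub (rb_of hT.hv hT.hy₁ h hT.r₁),
    fun h => hT.rb10 _ hsub (rb_of hT.hv hT.hy₂ h hT.r₂), fun h1 h2 => hT.min _ hsub ?_⟩
  refine ⟨v, Finset.mem_union_left _ hT.hv, y₁, ?_, y₂, ?_, hT.ne, hT.r₁, hT.r₂⟩
  · have := hT.hy₁
    rw [Finset.mem_sdiff] at this ⊢
    refine ⟨this.1, fun h => ?_⟩
    rcases Finset.mem_union.1 h with h | h
    · exact this.2 h
    · exact h1 h
  · have := hT.hy₂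
    rw [Finset.mem_sdiff] at this ⊢
    refine ⟨this.1, fun h => ?_⟩
    rcases Finset.mem_union.1 h with h | h
    · exact this.2 h
    · exact h2 h

/-- bounds for the subsets of `X` -/
theorem budX (hb : S3_base) (hT : T2 H S X v y₁ y₂ ν) (h12 : 12 ≤ ν) {C : Finset V} (hC : C ⊆ X)
    (hne : C.Nonempty) : (v ∈ C → 12 ≤ hp H C) ∧ 5 ≤ hp H C := by
  have hCS : C ⊆ S := hC.trans hT.sub
  have hyC : ∀ y, y ∈ S \ X → y ∈ S \ C := fun y hy => by
    rw [Finset.mem_sdiff] at hy ⊢
    exact ⟨hy.1, fun h => hy.2 (hC h)⟩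
  have h1 : v ∈ C → 12 ≤ hp H C := fun h =>
    h12.trans (hT.min C hCS ⟨v, h, y₁, hyC _ hT.hy₁, y₂, hyC _ hT.hy₂, hT.ne, hT.r₁, hT.r₂⟩)
  refine ⟨h1, ?_⟩
  by_cases hv : v ∈ C
  · have := h1 hv
    omega
  · by_cases hR : RB H S C
    · have := hT.rb10 C hCS hR
      omega
    · refine hT.cl5 C hCS hne hR ⟨v, ?_, y₁, (Finset.mem_sdiff.1 hT.hy₁).1, hT.r₁⟩
      exact Finset.mem_sdiff.2 ⟨hT.sub hT.hv, hv⟩

theorem X_ne (hT : T2 H S X v y₁ y₂ ν) : X ≠ S := by
  intro h
  have := hT.hy₁
  rw [h, Finset.mem_sdiff] at this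
  exact this.2 this.1

/-- no colouring of `X` with `v` coloured 2 and two spare units -/
theorem fact0 (hb : S3_base) (hk : S3_kill) (hT : T2 H S X v y₁ y₂ ν) {f : V → Bool}
    {p : V → V → ℤ} (hf : ColBy H X f p) (hfv : f v = false)
    (hl : load H X f p v + 2 ≤ H.c (f v) v) : False := by
  have ok := hT.mc.ok
  obtain ⟨s, hs⟩ : ∃ s : V → V → ℤ, ∀ a b, s a b =
      (if b = y₁ then (if a = v then 1 else 0) else 0) +
      (if b = y₂ then (if a = v then 1 else 0) else 0) := ⟨_, fun _ _ => rfl⟩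
  have hs0 : ∀ a b, 0 ≤ s a b := by
    intro a b
    rw [hs]
    split_ifs <;> omega
  have hsX : ∀ a, ∑ b ∈ S \ X, s a b = (if a = v then 2 else 0) := by
    intro a
    rw [Finset.sum_congr rfl fun b _ => hs a b, Finset.sum_add_distrib,
      Finset.sum_ite_eq', Finset.sum_ite_eq', if_pos hT.hy₁, if_pos hT.hy₂]
    split_ifs <;> norm_num
  obtain ⟨C, hC, hCne, hkill⟩ := hk V H S X f p s hT.mc hT.sub ⟨v, hT.hv⟩ hf hs0 (fun a ha => by
    rw [hsX]
    by_cases h1 : a = v
    · rw [if_pos h1, h1]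
      exact hl
    · rw [if_neg h1, add_zero]
      exact hf.cap a ha)
  have hr0 : ∀ a b, 0 ≤ H.r a b := fun a b => by rcases ok.r01 a b with h | h <;> omega
  have hsv : ∀ a b, 0 ≤ sv H f s a b := by
    intro a b
    have h1 := hr0 a b
    have h2 := ok.m_nn a b
    have h3 : 0 ≤ min (H.m a b) (s a b) := le_min h2 (hs0 a b)
    unfold sv
    refine add_nonneg ?_ ?_
    · split_ifs <;> omega
    · split_ifs <;> omega
  have hsvv : ∀ b, (if b = y₁ then (9 : ℤ) else 0) + (if b = y₂ then 9 else 0) ≤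
      sv H f s v b := by
    intro b
    have h2 := ok.m_nn v b
    have h3 : 0 ≤ min (H.m v b) (s v b) := le_min h2 (hs0 v b)
    by_cases hb1 : b = y₁
    · have hb2 : b ≠ y₂ := fun h => hT.ne (hb1.symm.trans h)
      have h4 : s v b = 1 := by
        rw [hs, if_pos hb1, if_neg hb2, if_pos rfl]
        norm_num
      have h5 : H.r v b = 1 := by rw [hb1]; exact hT.r₁
      rw [if_pos hb1, if_neg hb2]
      unfold sv
      rw [if_pos (by rw [h4, h5]), hfv, h5]
      simp only [Bool.false_eq_true, if_false]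
      omega
    · by_cases hb2 : b = y₂
      · have h4 : s v b = 1 := by
          rw [hs, if_neg hb1, if_pos hb2, if_pos rfl]
          norm_num
        have h5 : H.r v b = 1 := by rw [hb2]; exact hT.r₂
        rw [if_neg hb1, if_pos hb2]
        unfold sv
        rw [if_pos (by rw [h4, h5]), hfv, h5]
        simp only [Bool.false_eq_true, if_false]
        omega
      · rw [if_neg hb1, if_neg hb2, add_zero]
        exact hsv v b
  have hsum : (if y₁ ∈ C then (9 : ℤ) else 0) + (if y₂ ∈ C then 9 else 0) ≤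
      ∑ a ∈ X, ∑ b ∈ C, sv H f s a b := by
    calc (if y₁ ∈ C then (9 : ℤ) else 0) + (if y₂ ∈ C then 9 else 0) =
        ∑ b ∈ C, ((if b = y₁ then (9 : ℤ) else 0) + (if b = y₂ then 9 else 0)) := by
          rw [Finset.sum_add_distrib, Finset.sum_ite_eq', Finset.sum_ite_eq']
      _ ≤ ∑ b ∈ C, sv H f s v b := Finset.sum_le_sum fun b _ => hsvv b
      _ ≤ _ := Finset.single_le_sum (f := fun a => ∑ b ∈ C, sv H f s a b)
          (fun a _ => Finset.sum_nonneg fun b _ => hsv a b) hT.hv
  obtain ⟨b1, b2, b3, b4⟩ := bnd hb hT hC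
  have hν := hT.hν
  have hle := hT.le
  rw [hν] at hkill
  by_cases h1 : y₁ ∈ C
  · by_cases h2 : y₂ ∈ C
    · rw [if_pos h1, if_pos h2] at hsum
      linarith
    · rw [if_pos h1, if_neg h2] at hsum
      have := b3 h2
      linarith
  · by_cases h2 : y₂ ∈ C
    · rw [if_neg h1, if_pos h2] at hsum
      have := b2 h1
      linarith
    · rw [if_neg h1, if_neg h2] at hsum
      have := b4 h1 h2
      linarith

/-- state A1 -/
theorem stA1 (hb : S3_base) (hs : S3_state) (hk : S3_kill) (hT : T2 H S X v y₁ y₂ ν)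
    (h12 : 12 ≤ ν) (hB : Bdy H S X v y₁ y₂ x z) :
    ∃ f p, ColBy H X f p ∧ f v = true ∧ load H X f p v + 1 ≤ H.c (f v) v ∧
      (f x = false → load H X f p x + 1 ≤ H.c (f x) x) := by
  obtain ⟨f, p, hf, hl⟩ := hs V H S X (fun i a => if i = true then (if a = v then 1 else 0) else
    ((if a = v then 2 else 0) + (if a = x then 1 else 0))) hT.mc hT.sub (X_ne hT)
    (fun i a => by split_ifs <;> norm_num) (fun C hC hne => by
      rw [cost3 _ C v x v 11 3 0 (fun a => by
        simp only [if_true, Bool.false_eq_true, if_false]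
        split_ifs <;> norm_num)]
      obtain ⟨h1, h2⟩ := budX hb hT h12 hC hne
      by_cases hv : v ∈ C
      · have := h1 hv
        split_ifs <;> omega
      · split_ifs <;> omega)
  refine ⟨f, p, hf, ?_, ?_, ?_⟩
  · by_contra hfv
    have hfv' : f v = false := by simpa using hfv
    refine fact0 hb hk hT hf hfv' ?_
    have h1 := (hl v hT.hv).1
    have hvx : v ≠ x := hB.hxv.symm
    simp only [hfv', Bool.false_eq_true, if_false, if_true, if_neg hvx, add_zero] at h1 ⊢
    exact h1
  · have hfv : f v = true := by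
      by_contra hfv
      have hfv' : f v = false := by simpa using hfv
      refine fact0 hb hk hT hf hfv' ?_
      have h1 := (hl v hT.hv).1
      have hvx : v ≠ x := hB.hxv.symm
      simp only [hfv', Bool.false_eq_true, if_false, if_true, if_neg hvx, add_zero] at h1 ⊢
      exact h1
    have h1 := (hl v hT.hv).1
    simp only [hfv, if_true] at h1 ⊢
    exact h1
  · intro hfx
    have h1 := (hl x hB.hx).1
    simp only [hfx, Bool.false_eq_true, if_false, if_true, if_neg hB.hxv, zero_add] at h1 ⊢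
    exact h1

/-- state A2 -/
theorem stA2 (hb : S3_base) (hs : S3_state) (hT : T2 H S X v y₁ y₂ ν)
    (h12 : 12 ≤ ν) (hB : Bdy H S X v y₁ y₂ x z) :
    ∃ f p, ColBy H X f p ∧ f v = false ∧
      (f x = false → load H X f p x + 1 ≤ H.c (f x) x) := by
  obtain ⟨f, p, hf, hl⟩ := hs V H S X (fun i a => if i = true then (if a = v then 2 else 0) else
    (if a = x then 1 else 0)) hT.mc hT.sub (X_ne hT)
    (fun i a => by split_ifs <;> norm_num) (fun C hC hne => by
      rw [cost3 _ C v x v 10 3 0 (fun a => by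
        simp only [if_true, Bool.false_eq_true, if_false]
        split_ifs <;> norm_num)]
      obtain ⟨h1, h2⟩ := budX hb hT h12 hC hne
      by_cases hv : v ∈ C
      · have := h1 hv
        split_ifs <;> omega
      · split_ifs <;> omega)
  refine ⟨f, p, hf, ?_, ?_⟩
  · by_contra hfv
    have hfv' : f v = true := by simpa using hfv
    obtain ⟨h1, h2⟩ := hl v hT.hv
    simp only [hfv', if_true] at h1
    have h3 : H.c true v ≤ 1 := hT.mc.ok.c1_le v
    omega
  · intro hfx
    have h1 := (hl x hB.hx).1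
    simp only [hfx, Bool.false_eq_true, if_false, if_true] at h1 ⊢
    exact h1

theorem hpC (hb : S3_base) (hT : T2 H S X v y₁ y₂ ν) (hB : Bdy H S X v y₁ y₂ x z)
    {C : Finset V} (hC : C ⊆ S \ X) : hp H C = hp H (X ∪ C) - ν + 12 * ((if y₁ ∈ C then 1 else 0) +
      (if y₂ ∈ C then 1 else 0) + (if z ∈ C then 1 else 0)) := by
  obtain ⟨-, h2, -⟩ := hb V H hT.mc.ok
  have hd : Disjoint X C := by
    rw [Finset.disjoint_left]
    intro a ha haC
    exact (Finset.mem_sdiff.1 (hC haC)).2 ha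
  have h3 := h2 X C hd
  have hmm : mm H X C = 0 := by
    unfold mm
    exact Finset.sum_eq_zero fun a ha => Finset.sum_eq_zero fun b hb => hB.m0 a ha b (hC hb)
  have hrr : rr H X C = (if y₁ ∈ C then 1 else 0) + (if y₂ ∈ C then 1 else 0) +
      (if z ∈ C then 1 else 0) := by
    unfold rr
    have e1 : ∀ a ∈ X, ∑ b ∈ C, H.r a b = (if a = v then ((if y₁ ∈ C then 1 else 0) +
        (if y₂ ∈ C then 1 else 0)) else 0) + (if a = x then (if z ∈ C then 1 else 0) else 0) := by
      intro a ha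
      have e2 : ∀ b ∈ C, H.r a b = (if b = y₁ then (if a = v then 1 else 0) else 0) +
          (if b = y₂ then (if a = v then 1 else 0) else 0) +
          (if b = z then (if a = x then 1 else 0) else 0) := by
        intro b hb
        rw [hB.r a ha b (hC hb)]
        split_ifs <;> ring
      rw [Finset.sum_congr rfl e2, Finset.sum_add_distrib, Finset.sum_add_distrib,
        Finset.sum_ite_eq', Finset.sum_ite_eq', Finset.sum_ite_eq']
      split_ifs <;> ring
    rw [Finset.sum_congr rfl e1, Finset.sum_add_distrib, Finset.sum_ite_eq', Finset.sum_ite_eq',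
      if_pos hT.hv, if_pos hB.hx]
  rw [hT.hν, hmm, hrr] at h3
  linarith

theorem B_ne (hT : T2 H S X v y₁ y₂ ν) : S \ X ≠ S := by
  intro h
  have h1 := hT.sub hT.hv
  rw [← h, Finset.mem_sdiff] at h1
  exact h1.2 hT.hv

/-- the case `z = y₁` -/
theorem case_eq (hb : S3_base) (hs : S3_state) (hg : S3_glue) (hk : S3_kill)
    (hT : T2 H S X v y₁ y₂ ν) (h12 : 12 ≤ ν) (hB : Bdy H S X v y₁ y₂ x y₁) : False := by
  have ok := hT.mc.ok
  obtain ⟨f, p, hf, hfv, hlv, hlx⟩ := stA1 hb hs hk hT h12 hB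
  obtain ⟨g, q, hgc, hl⟩ := hs V H S (S \ X) (fun i a => if i = true then
    ((if a = y₁ then 2 else 0) + (if a = y₂ then 1 else 0)) else (if a = y₁ then 1 else 0))
    hT.mc Finset.sdiff_subset (B_ne hT) (fun i a => by split_ifs <;> norm_num) (fun C hC hne => by
      rw [cost3 _ C y₁ y₂ y₂ 13 5 0 (fun a => by
        simp only [if_true, Bool.false_eq_true, if_false]
        split_ifs <;> norm_num), hpC hb hT hB hC]
      obtain ⟨b1, b2, b3, b4⟩ := bnd hb hT hC
      have hle := hT.le
      by_cases h1 : y₁ ∈ C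
      · by_cases h2 : y₂ ∈ C
        · simp only [if_pos h1, if_pos h2]
          omega
        · have := b3 h2
          simp only [if_pos h1, if_neg h2]
          omega
      · by_cases h2 : y₂ ∈ C
        · have := b2 h1
          simp only [if_neg h1, if_pos h2]
          omega
        · have := b4 h1 h2
          simp only [if_neg h1, if_neg h2]
          omega)
  have hgz : g y₁ = false := by
    by_contra h
    have h' : g y₁ = true := by simpa using h
    obtain ⟨h1, h2⟩ := hl y₁ hT.hy₁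
    simp only [h', if_true, if_neg hT.ne] at h1
    have h3 : H.c true y₁ ≤ 1 := ok.c1_le y₁
    omega
  have hlz : load H (S \ X) g q y₁ + 1 ≤ H.c (g y₁) y₁ := by
    have h1 := (hl y₁ hT.hy₁).1
    simp only [hgz, Bool.false_eq_true, if_false, if_true] at h1 ⊢
    exact h1
  have hly : g y₂ = true → load H (S \ X) g q y₂ + 1 ≤ H.c (g y₂) y₂ := by
    intro h
    have h1 := (hl y₂ hT.hy₂).1
    simp only [h, if_true, if_neg hT.ne.symm, zero_add] at h1 ⊢
    exact h1
  refine hT.mc.ncol (glue3 hg ok hT.sub hT.hv hT.hy₁ hT.hy₂ hB hf hgc 0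
    (if f v = g y₂ then 1 else 0) (if f x = g y₁ then 1 else 0) ?_ rfl rfl ?_ ?_ ?_)
  · rw [if_neg]
    rw [hfv, hgz]
    exact Bool.noConfusion
  · have : (if f v = g y₂ then (1 : ℤ) else 0) ≤ 1 := by split_ifs <;> norm_num
    omega
  · by_cases h : f x = g y₁
    · rw [if_pos h]
      exact hlx (h.trans hgz)
    · rw [if_neg h, add_zero]
      exact hf.cap x hB.hx
  · intro b hbB
    by_cases h1 : b = y₁
    · have h2 : b ≠ y₂ := fun h => hT.ne (h1.symm.trans h)
      rw [if_pos h1, if_neg h2, if_pos h1, h1]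
      have : (if f x = g y₁ then (1 : ℤ) else 0) ≤ 1 := by split_ifs <;> norm_num
      omega
    · rw [if_neg h1, if_neg h1]
      by_cases h2 : b = y₂
      · rw [if_pos h2, h2]
        by_cases h3 : f v = g y₂
        · rw [if_pos h3]
          have := hly (h3.symm.trans hfv)
          omega
        · rw [if_neg h3]
          have := hgc.cap y₂ hT.hy₂
          omega
      · rw [if_neg h2]
        have := hgc.cap b hbB
        omega

/-- the case `z ≠ y₁, y₂` -/
theorem case_ne (hb : S3_base) (hs : S3_state) (hg : S3_glue) (hk : S3_kill)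
    (hT : T2 H S X v y₁ y₂ ν) (h12 : 12 ≤ ν) (hB : Bdy H S X v y₁ y₂ x z) (hz1 : z ≠ y₁)
    (hz2 : z ≠ y₂) : False := by
  have ok := hT.mc.ok
  obtain ⟨g, q, hgc, hl⟩ := hs V H S (S \ X) (fun i a => if i = true then
    ((if a = y₁ then 1 else 0) + (if a = y₂ then 1 else 0) + (if a = z then 2 else 0)) else
      (if a = z then 1 else 0))
    hT.mc Finset.sdiff_subset (B_ne hT) (fun i a => by split_ifs <;> norm_num) (fun C hC hne => by
      rw [cost3 _ C y₁ y₂ z 5 5 13 (fun a => by
        simp only [if_true, Bool.false_eq_true, if_false]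
        split_ifs <;> norm_num), hpC hb hT hB hC]
      obtain ⟨b1, b2, b3, b4⟩ := bnd hb hT hC
      have b5 : z ∉ C → 10 ≤ hp H (X ∪ C) := fun h => hT.rb10 _
        (Finset.union_subset hT.sub (hC.trans Finset.sdiff_subset)) (rb_of hB.hx hB.hz h hB.hr)
      have hle := hT.le
      by_cases h1 : y₁ ∈ C
      · by_cases h2 : y₂ ∈ C
        · by_cases h3 : z ∈ C
          · simp only [if_pos h1, if_pos h2, if_pos h3]
            omega
          · have := b5 h3
            simp only [if_pos h1, if_pos h2, if_neg h3]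
            omega
        · have := b3 h2
          simp only [if_pos h1, if_neg h2]
          split_ifs <;> omega
      · by_cases h2 : y₂ ∈ C
        · have := b2 h1
          simp only [if_neg h1, if_pos h2]
          split_ifs <;> omega
        · have := b4 h1 h2
          simp only [if_neg h1, if_neg h2]
          split_ifs <;> omega)
  have hgz : g z = false := by
    by_contra h
    have h' : g z = true := by simpa using h
    obtain ⟨h1, h2⟩ := hl z hB.hz
    simp only [h', if_true, if_neg hz1, if_neg hz2] at h1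
    have h3 : H.c true z ≤ 1 := ok.c1_le z
    omega
  have hlz : load H (S \ X) g q z + 1 ≤ H.c (g z) z := by
    have h1 := (hl z hB.hz).1
    simp only [hgz, Bool.false_eq_true, if_false, if_true] at h1 ⊢
    exact h1
  have hly1 : g y₁ = true → load H (S \ X) g q y₁ + 1 ≤ H.c (g y₁) y₁ := by
    intro h
    have h1 := (hl y₁ hT.hy₁).1
    simp only [h, if_true, if_neg hT.ne, if_neg hz1.symm, add_zero] at h1 ⊢
    exact h1
  have hly2 : g y₂ = true → load H (S \ X) g q y₂ + 1 ≤ H.c (g y₂) y₂ := by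
    intro h
    have h1 := (hl y₂ hT.hy₂).1
    simp only [h, if_true, if_neg hT.ne.symm, if_neg hz2.symm, add_zero, zero_add] at h1 ⊢
    exact h1
  -- the conditions in `S \ X`
  have hBall : ∀ (f : V → Bool), (f v = g y₁ → g y₁ = true) → (f v = g y₂ → g y₂ = true) →
      ∀ b ∈ S \ X, load H (S \ X) g q b + ((if b = y₁ then (if f v = g y₁ then 1 else 0) else 0) +
      (if b = y₂ then (if f v = g y₂ then 1 else 0) else 0) +
      (if b = z then (if f x = g z then 1 else 0) else 0)) ≤ H.c (g b) b := by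
    intro f hf1 hf2 b hbB
    by_cases h1 : b = y₁
    · have h2 : b ≠ y₂ := fun h => hT.ne (h1.symm.trans h)
      have h3 : b ≠ z := fun h => hz1 (h.symm.trans h1)
      rw [if_pos h1, if_neg h2, if_neg h3, h1]
      by_cases h4 : f v = g y₁
      · rw [if_pos h4]
        have := hly1 (hf1 h4)
        omega
      · rw [if_neg h4]
        have := hgc.cap y₁ hT.hy₁
        omega
    · rw [if_neg h1]
      by_cases h2 : b = y₂
      · have h3 : b ≠ z := fun h => hz2 (h.symm.trans h2)
        rw [if_pos h2, if_neg h3, h2]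
        by_cases h4 : f v = g y₂
        · rw [if_pos h4]
          have := hly2 (hf2 h4)
          omega
        · rw [if_neg h4]
          have := hgc.cap y₂ hT.hy₂
          omega
      · rw [if_neg h2]
        by_cases h3 : b = z
        · rw [if_pos h3, h3]
          have : (if f x = g z then (1 : ℤ) else 0) ≤ 1 := by split_ifs <;> norm_num
          omega
        · rw [if_neg h3]
          have := hgc.cap b hbB
          omega
  by_cases hboth : g y₁ = true ∧ g y₂ = true
  · obtain ⟨f, p, hf, hfv, hlx⟩ := stA2 hb hs hT h12 hB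
    have n1 : ¬ f v = g y₁ := by
      rw [hfv, hboth.1]
      exact Bool.noConfusion
    have n2 : ¬ f v = g y₂ := by
      rw [hfv, hboth.2]
      exact Bool.noConfusion
    refine hT.mc.ncol (glue3 hg ok hT.sub hT.hv hT.hy₁ hT.hy₂ hB hf hgc _ _ _ rfl rfl rfl ?_ ?_
      (hBall f (fun _ => hboth.1) fun _ => hboth.2))
    · rw [if_neg n1, if_neg n2]
      have := hf.cap v hT.hv
      omega
    · by_cases h : f x = g z
      · rw [if_pos h]
        exact hlx (h.trans hgz)
      · rw [if_neg h, add_zero]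
        exact hf.cap x hB.hx
  · obtain ⟨f, p, hf, hfv, hlv, hlx⟩ := stA1 hb hs hk hT h12 hB
    refine hT.mc.ncol (glue3 hg ok hT.sub hT.hv hT.hy₁ hT.hy₂ hB hf hgc _ _ _ rfl rfl rfl ?_ ?_
      (hBall f (fun h => h.symm.trans hfv) fun h => h.symm.trans hfv))
    · have h5 : (if f v = g y₁ then (1 : ℤ) else 0) + (if f v = g y₂ then 1 else 0) ≤ 1 := by
        by_cases h1 : f v = g y₁
        · by_cases h2 : f v = g y₂
          · exact absurd ⟨h1.symm.trans hfv, h2.symm.trans hfv⟩ hboth
          · rw [if_pos h1, if_neg h2]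
            norm_num
        · rw [if_neg h1]
          split_ifs <;> norm_num
      omega
    · by_cases h : f x = g z
      · rw [if_pos h]
        exact hlx (h.trans hgz)
      · rw [if_neg h, add_zero]
        exact hf.cap x hB.hx

end

theorem t2f (hb : S3_base) (hs : S3_state) (hg : S3_glue) (hk : S3_kill) : S3_t2f := by
  intro V _ H S X v y₁ y₂ ν x z hT h12 hbo heo hx hxv hz hr
  by_cases hz1 : z = y₁
  · subst hz1
    exact case_eq hb hs hg hk hT h12 (bdy_of hT hbo heo hx hxv hz hr)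
  · by_cases hz2 : z = y₂
    · subst hz2
      have hT' : T2 H S X v z y₁ ν := ⟨hT.mc, hT.rb10, hT.cl5, hT.sub, hT.hv, hT.hy₂, hT.hy₁,
        hT.ne.symm, hT.r₂, hT.r₁, hT.hν, hT.le, hT.min⟩
      exact case_eq hb hs hg hk hT' h12 (bdy_of hT' hbo heo hx hxv hz hr)
    · exact case_ne hb hs hg hk hT h12 (bdy_of hT hbo heo hx hxv hz hr) hz1 hz2

end Pool.Agent.N78.DF
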